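import Mathlib
import Pool.Agent.Q74.SP.SD3

set_option autoImplicit false

/-!
The asymptotics of the number of `n ≤ x` with total stopping time `l` under the Collatz map: an
oscillating local limit theorem.
-/

namespace Pool.Agent.Results.MP_e43fce_nt.CollatzStepsLocalLimit

open Finset Filter Topology MeasureTheory

/-- the Collatz function -/
def C (n : ℕ) : ℕ := if n % 2 = 1 then 3 * n + 1 else n / 2

/-- `n` reaches `1` -/
def Reaches (n : ℕ) : Prop := ∃ k : ℕ, C^[k] n = 1

/-- the total stopping time (of an `n` that reaches `1`) -/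
noncomputable def steps (n : ℕ) : ℕ := sInf {k : ℕ | C^[k] n = 1}

/-- the number of odd terms of the trajectory of `n` before `1` is reached -/
noncomputable def odds (n : ℕ) : ℕ := ((range (steps n)).filter fun i => C^[i] n % 2 = 1).card

/-- the logarithm of the residue `2 ^ e / (3 ^ o n)` of `n`, where `o = odds n` and `e = steps n - o`
are the numbers of odd and of even terms before `1` -/
noncomputable def logRes (n : ℕ) : ℝ :=
  ((steps n : ℝ) - odds n) * Real.log 2 - odds n * Real.log 3 - Real.log n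

open Classical in
/-- the number of the positive integers `n ≤ N` that reach `1` with `a ≤ logRes n` -/
noncomputable def R (N : ℕ) (a : ℝ) : ℕ := ((Icc 1 N).filter fun n => Reaches n ∧ a ≤ logRes n).card

open Classical in
/-- the number of the positive integers `n ≤ x` with total stopping time `l` -/
noncomputable def W (x : ℝ) (l : ℕ) : ℕ := ((Icc 1 ⌊x⌋₊).filter fun n => Reaches n ∧ steps n = l).card

/-- `1 / 6 < saw u ≤ 1`, of period `log 6`, equal to `e ^ u` for `- log 6 < u ≤ 0` -/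
noncomputable def saw (u : ℝ) : ℝ := Real.exp (u - Real.log 6 * ⌈u / Real.log 6⌉)

/-- the periodic factor -/
noncomputable def Theta (ν : Measure ℝ) (u : ℝ) : ℝ := ∫ r, saw (u - r) ∂ν

/-! ### Comparison with the shortcut map -/

/-- the shortcut map -/
def T (n : ℕ) : ℕ := if n % 2 = 0 then n / 2 else (3 * n + 1) / 2

/-- odd terms of the shortcut trajectory -/
def od (j n : ℕ) : ℕ := ((range j).filter fun i => T^[i] n % 2 = 1).card

theorem od_succ (j n : ℕ) : od (j + 1) n = od j n + (if T^[j] n % 2 = 1 then 1 else 0) := by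
  unfold od
  rw [range_add_one, filter_insert]
  split_ifs with h
  · rw [card_insert_of_notMem (by simp)]
  · simp

theorem C_T (n j : ℕ) : C^[j + od j n] n = T^[j] n := by
  induction j with
  | zero => simp [od]
  | succ j ih =>
    rw [od_succ]
    by_cases h : T^[j] n % 2 = 1
    · rw [if_pos h, show j + 1 + (od j n + 1) = (j + od j n) + 1 + 1 by ring,
        Function.iterate_succ_apply', Function.iterate_succ_apply', ih, Function.iterate_succ_apply']
      set m := T^[j] n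
      unfold C T
      rw [if_pos h, if_neg (by omega), if_neg (by omega)]
    · rw [if_neg h, add_zero, show j + 1 + od j n = (j + od j n) + 1 by ring,
        Function.iterate_succ_apply', ih, Function.iterate_succ_apply']
      set m := T^[j] n
      unfold C T
      rw [if_neg h, if_pos (by omega)]

theorem C_odd (n j : ℕ) (h : T^[j] n % 2 = 1) : C^[j + od j n + 1] n = 3 * T^[j] n + 1 := by
  rw [Function.iterate_succ_apply', C_T]
  unfold C
  rw [if_pos h]

theorem C_cases (n t : ℕ) : (∃ j, t = j + od j n) ∨ ∃ j, T^[j] n % 2 = 1 ∧ t = j + od j n + 1 := by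
  induction t with
  | zero => exact Or.inl ⟨0, by simp [od]⟩
  | succ t ih =>
    rcases ih with ⟨j, hj⟩ | ⟨j, hj, ht⟩
    · by_cases h : T^[j] n % 2 = 1
      · exact Or.inr ⟨j, h, by omega⟩
      · refine Or.inl ⟨j + 1, ?_⟩
        rw [od_succ, if_neg h]
        omega
    · refine Or.inl ⟨j + 1, ?_⟩
      rw [od_succ, if_pos hj]
      omega

/-- the odd terms among the first `j + od j n` Collatz iterates -/
theorem odds_C (n j : ℕ) : ((range (j + od j n)).filter fun i => C^[i] n % 2 = 1).card = od j n := by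
  induction j with
  | zero => simp [od]
  | succ j ih =>
    rw [od_succ]
    by_cases h : T^[j] n % 2 = 1
    · rw [if_pos h, show j + 1 + (od j n + 1) = (j + od j n) + 1 + 1 by ring, range_add_one, filter_insert,
        C_odd n j h, if_neg (by omega), range_add_one, filter_insert, C_T, if_pos h,
        card_insert_of_notMem (by simp), ih]
    · rw [if_neg h, add_zero, show j + 1 + od j n = (j + od j n) + 1 by ring, range_add_one, filter_insert,
        C_T, if_neg h, ih]

theorem od_mono (n : ℕ) : Monotone fun j => od j n := by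
  apply monotone_nat_of_le_succ
  intro j
  rw [od_succ]
  omega

theorem C_one {n t : ℕ} (h : C^[t] n = 1) : ∃ j, T^[j] n = 1 ∧ t = j + od j n := by
  rcases C_cases n t with ⟨j, hj⟩ | ⟨j, hj, ht⟩
  · refine ⟨j, ?_, hj⟩
    rw [← C_T, ← hj, h]
  · rw [ht, C_odd n j hj] at h
    omega

theorem T_cast (n : ℕ) : Pool.Agent.Q74.SP.T (n : ℤ) = (T n : ℤ) := by
  unfold Pool.Agent.Q74.SP.T T
  split_ifs <;> omega

theorem iter_cast (k n : ℕ) : Pool.Agent.Q74.SP.T^[k] (n : ℤ) = (T^[k] n : ℤ) := by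
  induction k with
  | zero => rfl
  | succ k ih => rw [Function.iterate_succ_apply', Function.iterate_succ_apply', ih, T_cast]

theorem mem_iff (k n : ℕ) : Pool.Agent.Q74.SP.T^[k] (n : ℤ) ∈ ({1} : Finset ℤ) ↔ T^[k] n = 1 := by
  rw [iter_cast, mem_singleton]
  exact_mod_cast Iff.rfl

theorem meets_iff (n : ℕ) : Pool.Agent.Q74.SP.Meets {1} (n : ℤ) ↔ Reaches n := by
  unfold Pool.Agent.Q74.SP.Meets Reaches
  simp only [mem_iff]
  constructor
  · rintro ⟨j, hj⟩
    exact ⟨j + od j n, by rw [C_T, hj]⟩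
  · rintro ⟨t, ht⟩
    obtain ⟨j, hj, -⟩ := C_one ht
    exact ⟨j, hj⟩

theorem time_eq (n : ℕ) : Pool.Agent.Q74.SP.time {1} (n : ℤ) = sInf {k : ℕ | T^[k] n = 1} := by
  unfold Pool.Agent.Q74.SP.time
  simp only [mem_iff]

theorem od_eq (k n : ℕ) : Pool.Agent.Q74.SP.odds k (n : ℤ) = od k n := by
  unfold Pool.Agent.Q74.SP.odds od
  congr 1
  apply filter_congr
  intro i _
  rw [iter_cast]
  omega

theorem steps_eq {n : ℕ} (h : Reaches n) :
    steps n = sInf {k : ℕ | T^[k] n = 1} + od (sInf {k : ℕ | T^[k] n = 1}) n := by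
  have h1 : C^[steps n] n = 1 := Nat.sInf_mem (s := {k : ℕ | C^[k] n = 1}) h
  obtain ⟨j, hj, ht⟩ := C_one h1
  have hT : T^[sInf {k : ℕ | T^[k] n = 1}] n = 1 := Nat.sInf_mem (s := {k : ℕ | T^[k] n = 1}) ⟨j, hj⟩
  have hle : sInf {k : ℕ | T^[k] n = 1} ≤ j := Nat.sInf_le hj
  have h2 : steps n ≤ sInf {k : ℕ | T^[k] n = 1} + od (sInf {k : ℕ | T^[k] n = 1}) n := by
    apply Nat.sInf_le
    change C^[_] n = 1
    rw [C_T, hT]
  have h3 := od_mono n hle
  simp only at h3
  omega

theorem odds_eq {n : ℕ} (h : Reaches n) : odds n = od (sInf {k : ℕ | T^[k] n = 1}) n := by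
  unfold odds
  rw [steps_eq h, odds_C]

theorem lr_eq {n : ℕ} (h : Reaches n) : Pool.Agent.Q74.SP.lr {1} (n : ℤ) = logRes n := by
  unfold Pool.Agent.Q74.SP.lr logRes
  rw [time_eq, od_eq, Int.cast_natCast, odds_eq h, steps_eq h]
  push_cast
  ring

theorem grow (n k : ℕ) : 3 ^ (od k n) * n ≤ 2 ^ k * T^[k] n := by
  induction k with
  | zero => simp [od]
  | succ k ih =>
    rw [Function.iterate_succ_apply', od_succ]
    set m := T^[k] n with hm
    by_cases h : m % 2 = 1
    · rw [if_pos h]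
      have h2 : 3 * m ≤ 2 * T m := by
        unfold T
        rw [if_neg (by omega)]
        omega
      calc 3 ^ (od k n + 1) * n = 3 * (3 ^ (od k n) * n) := by ring
        _ ≤ 3 * (2 ^ k * m) := Nat.mul_le_mul_left _ ih
        _ = 2 ^ k * (3 * m) := by ring
        _ ≤ 2 ^ k * (2 * T m) := Nat.mul_le_mul_left _ h2
        _ = 2 ^ (k + 1) * T m := by ring
    · rw [if_neg h, add_zero]
      have h2 : m = 2 * T m := by
        unfold T
        rw [if_pos (by omega)]
        omega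
      calc _ ≤ 2 ^ k * m := ih
        _ = 2 ^ k * (2 * T m) := by rw [← h2]
        _ = 2 ^ (k + 1) * T m := by ring

theorem logRes_nonneg {n : ℕ} (hn : 1 ≤ n) (h : Reaches n) : 0 ≤ logRes n := by
  obtain ⟨t, ht⟩ := h
  obtain ⟨j, hj, -⟩ := C_one ht
  have h1 : T^[sInf {k : ℕ | T^[k] n = 1}] n = 1 := Nat.sInf_mem (s := {k : ℕ | T^[k] n = 1}) ⟨j, hj⟩
  have h2 := grow n (sInf {k : ℕ | T^[k] n = 1})
  rw [h1, mul_one, ← odds_eq ⟨t, ht⟩] at h2
  have h3 : (3 : ℝ) ^ odds n * n ≤ 2 ^ sInf {k : ℕ | T^[k] n = 1} := by exact_mod_cast h2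
  have hnR : (0 : ℝ) < n := by exact_mod_cast hn
  have h4 := Real.log_le_log (by positivity) h3
  rw [Real.log_mul (by positivity) hnR.ne', Real.log_pow, Real.log_pow] at h4
  unfold logRes
  rw [steps_eq ⟨t, ht⟩, odds_eq ⟨t, ht⟩]
  rw [odds_eq ⟨t, ht⟩] at h4
  push_cast
  linarith

/-- There is a finite measure `ν ≠ 0` without point masses on a bounded interval `[0, A]`, of mass `δ`
(the density of the integers that reach `1`), such that:
(1) `ν` is the limit law of the logarithms of the residues: the proportion of the `n ≤ N` that reach `1`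
with `logRes n ≥ a` tends to `ν [a, ∞)`;
(2) `Θ(u) = ∫ saw (u - r) dν(r)` is continuous, of period `log 6`, with values in `[δ/6, δ]`;
(3) for real `x > 0` and `l` with `|l log (4/3) - 3 log x| ≤ K √l`, the number `W(x, l)` of the `n ≤ x`
with total stopping time `l` is given by
`√l / x W(x, l) = 6/5 √(3/2) log (4/3) / √(2 π) exp(-3 (l log (4/3) - 3 log x)²/(4 l (log 6)²))
Θ(l log 2 - log x) + o(1)` as `l → ∞`, uniformly. -/
theorem result : ∃ (ν : Measure ℝ) (A : ℝ), IsFiniteMeasure ν ∧ ν (Set.Icc 0 A)ᶜ = 0 ∧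
    0 < ν.real Set.univ ∧ (∀ r, ν {r} = 0) ∧
    (∀ a : ℝ, Tendsto (fun N : ℕ => (R N a : ℝ) / N) atTop (𝓝 (ν.real (Set.Ici a)))) ∧
    Continuous (Theta ν) ∧ (∀ u, Theta ν (u + Real.log 6) = Theta ν u) ∧
    (∀ u, ν.real Set.univ / 6 ≤ Theta ν u ∧ Theta ν u ≤ ν.real Set.univ) ∧
    ∀ K ε : ℝ, 0 < ε → ∃ l0 : ℕ, ∀ l : ℕ, l0 ≤ l → ∀ x : ℝ, 0 < x →
      |l * Real.log (4 / 3) - 3 * Real.log x| ≤ K * √l →
      |√l / x * W x l - 6 / 5 * √(3 / 2) * (Real.log (4 / 3) / √(2 * Real.pi)) *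
        Real.exp (-(3 * (l * Real.log (4 / 3) - 3 * Real.log x) ^ 2) / (4 * l * Real.log 6 ^ 2)) *
        Theta ν (l * Real.log 2 - Real.log x)| ≤ ε := by
  classical
  have hs : (1 : ℤ) = 1 ∨ (1 : ℤ) = -1 := Or.inl rfl
  have hL6 : 0 < Real.log 6 := Real.log_pos (by norm_num)
  obtain ⟨ν, A0, hν, hA0, hna, hlaw⟩ := Pool.Agent.Q74.SP.law_cont hs {1}
  obtain ⟨A1, hA1pos, hA1⟩ := Pool.Agent.Q74.SP.lr_bdd {1}
  set A := max A0 A1 with hAdef
  have hA : ν (Set.Icc (-A) A)ᶜ = 0 := by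
    refine measure_mono_null ?_ hA0
    apply Set.compl_subset_compl.2
    exact Set.Icc_subset_Icc (neg_le_neg (le_max_left _ _)) (le_max_left _ _)
  have hAl : ∀ x, x ≠ 0 → Pool.Agent.Q74.SP.Meets {1} x → |Pool.Agent.Q74.SP.lr {1} x| ≤ A :=
    fun x h1 h2 => (hA1 x h1 h2).trans (le_max_right _ _)
  have hApos : 0 ≤ A := hA1pos.le.trans (le_max_right _ _)
  have hcast : ∀ n : ℕ, ((1 : ℤ) * (n : ℤ)) = (n : ℤ) := fun n => one_mul _
  have htheta : Theta ν = Pool.Agent.Q74.SP.ThL (Real.log 6) ν := by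
    funext u
    unfold Theta Pool.Agent.Q74.SP.ThL
    congr 1
    funext r
    unfold saw Pool.Agent.Q74.SP.thL
    have h3 : Real.log 6 ≠ 0 := hL6.ne'
    congr 1
    field_simp
  have hW : ∀ (x : ℝ) (l : ℕ), W x l = Pool.Agent.Q74.SP.CW 1 {1} x l := by
    intro x l
    unfold W Pool.Agent.Q74.SP.CW
    congr 1
    apply filter_congr
    intro n _
    rw [hcast, meets_iff]
    constructor
    · rintro ⟨h1, h2⟩
      refine ⟨h1, ?_⟩
      rw [← h2, time_eq, od_eq, steps_eq h1]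
    · rintro ⟨h1, h2⟩
      refine ⟨h1, ?_⟩
      rw [← h2, time_eq, od_eq, steps_eq h1]
  refine ⟨ν, A, hν, ?_, ?_, fun r => Pool.Agent.Q74.SP.NoAtoms.point hna r, ?_, ?_, ?_, ?_, ?_⟩
  · apply Pool.Agent.Q74.SP.law_supp hA hlaw
    intro n hn hm
    rw [hcast] at hm ⊢
    rw [lr_eq ((meets_iff n).1 hm)]
    exact logRes_nonneg hn ((meets_iff n).1 hm)
  · exact Pool.Agent.Q74.SP.mass_pos hs hlaw ⟨1, by simp, by norm_num, by norm_num⟩
  · intro a
    have h1 := Pool.Agent.Q74.SP.law_cdf hA hna hlaw a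
    refine h1.congr fun N => ?_
    unfold R
    congr 3
    apply filter_congr
    intro n _
    rw [hcast, meets_iff]
    constructor
    · rintro ⟨h1, h2⟩
      exact ⟨h1, by rwa [lr_eq h1] at h2⟩
    · rintro ⟨h1, h2⟩
      exact ⟨h1, by rwa [lr_eq h1]⟩
  · rw [htheta]
    exact Pool.Agent.Q74.SP.ThL_cont hL6 hna
  · intro u
    rw [htheta]
    exact Pool.Agent.Q74.SP.ThL_per hL6 u
  · intro u
    rw [htheta]
    refine ⟨le_trans (le_of_eq ?_) (Pool.Agent.Q74.SP.ThL_ge hL6 u), Pool.Agent.Q74.SP.ThL_le hL6 u⟩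
    rw [Real.exp_neg, Real.exp_log (by norm_num)]
    ring
  · intro K ε hε
    obtain ⟨l0, hl0⟩ := Pool.Agent.Q74.SP.sharpC hs hApos hA hAl hna hlaw (abs_nonneg K) hε
    refine ⟨l0, fun l hl x hx hxl => ?_⟩
    have h1 := hl0 l hl x hx (hxl.trans (mul_le_mul_of_nonneg_right (le_abs_self K) (Real.sqrt_nonneg _)))
    rw [Pool.Agent.Q74.SP.kappa_eq] at h1
    rw [hW, htheta]
    exact h1

end Pool.Agent.Results.MP_e43fce_nt.CollatzStepsLocalLimit
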