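import Pool.Agent.Q158.Col2.Main

set_option autoImplicit false

/-!
# Popular values and popular heights in all intervals

The Collatz map on the integers. For every `ε > 0` there is a `δ > 0` such that every set `A` of at
least `L ^ (1 - δ)` integers which lies in an interval of length `L`, wherever this interval lies on the
real line, contains at least `c |A| L ^ (-ε)` integers whose trajectories have met after the same number
of steps, at most `K log (L + 1)`; and it contains at least `c |A| L ^ (-ε)` integers of the same height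
(they reach `1` after the same number of steps, or they all fail to reach it).

Method. Let `T` be the map with one halving per step and `W = log_2 L`. The `T ^ W x` of the `x` of `A`
with a popular number of odd steps lie in a window of length about `3 ^ (W / 2)`; the number of `x` with
the same value is at most `2 ^ W / 3 ^ (W / 2)`, up to `2 ^ (ε W)`, because two such `x` cannot agree
modulo `2 ^ (W - W')`, where `2 ^ W' = 3 ^ (W / 2)` up to `2 ^ (ε W)`. So the image of the counting
measure is again a bounded weight on a window with a large mean value, and one can repeat the argument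
on this shorter window.
-/

namespace Pool.Agent.Results.MP_e43fce_nt.PopularHeights

/-- the Collatz map on the integers -/
def C (x : ℤ) : ℤ := if x % 2 = 0 then x / 2 else 3 * x + 1

/-- `x` and `y` have the same height: they reach `1` after the same number of steps, or both of them
do not reach `1` -/
def SameHeight (x y : ℤ) : Prop :=
  ∀ k : ℕ, IsLeast {j : ℕ | C^[j] x = 1} k ↔ IsLeast {j : ℕ | C^[j] y = 1} k

/-- For every `ε > 0` there are `δ, c, K > 0` such that for all intervals `[a, a + L]`, `L ≥ 1`, and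
all sets `A` of at least `L ^ (1 - δ)` integers of this interval:
(1) there is a `B ⊆ A` with at least `c |A| L ^ (-ε)` elements and a `t ≤ K log (L + 1)` such that
`C^t x` is the same for all `x ∈ B`;
(2) there is a `B ⊆ A` with at least `c |A| L ^ (-ε)` elements all of which have the same height. -/
theorem result (ε : ℝ) (hε : 0 < ε) : ∃ δ c K : ℝ, 0 < δ ∧ 0 < c ∧ 0 < K ∧
    ∀ (a : ℤ) (L : ℕ), 1 ≤ L → ∀ A : Finset ℤ, (∀ x ∈ A, a ≤ x ∧ x ≤ a + L) →
      (L : ℝ) ^ (1 - δ) ≤ A.card →
      (∃ B ⊆ A, c * A.card * (L : ℝ) ^ (-ε) ≤ B.card ∧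
        ∃ t : ℕ, (t : ℝ) ≤ K * Real.log (L + 1) ∧ ∀ x ∈ B, ∀ y ∈ B, C^[t] x = C^[t] y) ∧
      (∃ B ⊆ A, c * A.card * (L : ℝ) ^ (-ε) ≤ B.card ∧ ∀ x ∈ B, ∀ y ∈ B, SameHeight x y) := by
  obtain ⟨δ₁, c₁, K, h1, h2, h3, h4⟩ := Pool.Agent.Q158.Col2.main1 ε hε
  obtain ⟨δ₂, c₂, h5, h6, h7⟩ := Pool.Agent.Q158.Col2.main2 ε hε
  refine ⟨min δ₁ δ₂, min c₁ c₂, K, lt_min h1 h5, lt_min h2 h6, h3, fun a L hL A hA hc => ?_⟩
  have hLr : (1 : ℝ) ≤ L := by exact_mod_cast hL
  have hpos : (0 : ℝ) ≤ A.card * (L : ℝ) ^ (-ε) := by positivity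
  constructor
  · obtain ⟨B, hB, hcard, h8⟩ := h4 a L hL A hA (le_trans
      (Real.rpow_le_rpow_of_exponent_le hLr (by linarith [min_le_left δ₁ δ₂])) hc)
    refine ⟨B, hB, le_trans ?_ hcard, h8⟩
    rw [mul_assoc, mul_assoc]
    exact mul_le_mul_of_nonneg_right (min_le_left _ _) hpos
  · obtain ⟨B, hB, hcard, h8⟩ := h7 a L hL A hA (le_trans
      (Real.rpow_le_rpow_of_exponent_le hLr (by linarith [min_le_right δ₁ δ₂])) hc)
    refine ⟨B, hB, le_trans ?_ hcard, h8⟩
    rw [mul_assoc, mul_assoc]
    exact mul_le_mul_of_nonneg_right (min_le_right _ _) hpos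

end Pool.Agent.Results.MP_e43fce_nt.PopularHeights
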