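import Mathlib
import Pool.Agent.Q74.SP.Twist

set_option autoImplicit false

/-!
The complete spectrum of the pairs (time, number of odd terms) before the trajectories of the `3x+1`
map on the integers meet a finite set, and the limit law of the residues.
-/

namespace Pool.Agent.Results.MP_e43fce_nt.SpectrumAndResidues

open Finset Filter Topology MeasureTheory

/-- the shortcut form of the Collatz map on the integers -/
def T (x : ℤ) : ℤ := if x % 2 = 0 then x / 2 else (3 * x + 1) / 2

/-- the trajectory of `x` meets `F` -/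
def Meets (F : Finset ℤ) (x : ℤ) : Prop := ∃ k : ℕ, T^[k] x ∈ F

/-- the first time at which the trajectory of `x` is in `F` -/
noncomputable def time (F : Finset ℤ) (x : ℤ) : ℕ := sInf {k : ℕ | T^[k] x ∈ F}

/-- the number of odd terms of the trajectory of `x` before it meets `F` -/
noncomputable def odds (F : Finset ℤ) (x : ℤ) : ℕ :=
  ((range (time F x)).filter fun i => T^[i] x % 2 = 1).card

/-- the logarithm of the residue `2 ^ k / (3 ^ o |x|)`, where `k` is the time at which the trajectory
of `x` meets `F` and `o` is the number of odd terms before -/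
noncomputable def logRes (F : Finset ℤ) (x : ℤ) : ℝ :=
  time F x * Real.log 2 - odds F x * Real.log 3 - Real.log |(x : ℝ)|

/-- `e x = exp (2 π i x)` -/
noncomputable def e (x : ℝ) : ℂ := Complex.exp (2 * Real.pi * Complex.I * x)

open Classical in
/-- `1 / N` times the sum of `h (logRes) * e (θ * time + φ * odds + β * n)` over the positive integers
`n ≤ N` for which the trajectory of `s * n` meets `F` -/
noncomputable def Mean (s : ℤ) (F : Finset ℤ) (h : ℝ → ℂ) (θ φ β : ℝ) (N : ℕ) : ℂ :=
  (∑ n ∈ (Icc 1 N).filter (fun n : ℕ => Meets F (s * n)),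
    h (logRes F (s * n)) * e (θ * time F (s * n) + φ * odds F (s * n) + β * n)) / N

/-- equality modulo one -/
def ModOne (a b : ℝ) : Prop := ∃ m : ℤ, a = b + m

theorem e_eq (x : ℝ) : e x = Pool.Agent.Q74.SP.e x := by
  unfold e Pool.Agent.Q74.SP.e
  congr 1
  push_cast
  ring

theorem mean_eq (s : ℤ) (F : Finset ℤ) (h : ℝ → ℂ) (θ φ β : ℝ) :
    Mean s F h θ φ β = Pool.Agent.Q74.SP.mean fun n =>
      Pool.Agent.Q74.SP.GG F h θ φ (s * n) * Pool.Agent.Q74.SP.e (β * n) := by
  classical
  funext N
  unfold Mean Pool.Agent.Q74.SP.mean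
  rw [sum_filter]
  congr 1
  apply sum_congr rfl
  intro n _
  simp only [e_eq]
  unfold Pool.Agent.Q74.SP.GG
  have h1 : Meets F (s * n) ↔ Pool.Agent.Q74.SP.Meets F (s * n) := Iff.rfl
  by_cases hm : Meets F (s * n)
  · rw [if_pos hm, if_pos (h1.1 hm), mul_assoc, ← Pool.Agent.Q74.SP.e_add]
    have h2 : logRes F (s * n) = Pool.Agent.Q74.SP.lr F (s * n) := by
      unfold logRes Pool.Agent.Q74.SP.lr
      rw [Real.log_abs]
      rfl
    rw [h2]
    rfl
  · rw [if_neg hm, if_neg (fun h => hm (h1.2 h)), zero_mul]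

/-- Let `s` be a sign and `F` a finite set of integers. There is a finite measure `ν` of compact
support, the limit law of the logarithms of the residues, with the following properties. Its mass (the
density of the `n` for which the trajectory of `s * n` meets `F`) is positive if `F` contains an
integer of the sign of `s` prime to `3`. Let `h` be continuous and `θ`, `φ`, `β` real. If `β` is not an
integer, or if `(θ, φ)` is not congruent modulo one to a point `(ω log 2, - ω log 3)`, then the mean
values of `h (logRes) e (θ time + φ odds + β n)` tend to zero; if `β` is an integer and `(θ, φ)` is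
congruent to `(ω log 2, - ω log 3)`, they are `N ^ (2 π i ω) (∫ h(x) e(ω x) dν / (1 + 2 π i ω) + o(1))`,
and `∫ e(ω x) dν` is not zero for small `ω` if the mass of `ν` is positive. -/
theorem result (s : ℤ) (hs : s = 1 ∨ s = -1) (F : Finset ℤ) :
    ∃ (ν : Measure ℝ) (A : ℝ), IsFiniteMeasure ν ∧ ν (Set.Icc (-A) A)ᶜ = 0 ∧
      ((∃ a ∈ F, 0 < s * a ∧ ¬ (3 : ℤ) ∣ a) → 0 < ν.real Set.univ) ∧
      (0 < ν.real Set.univ → ∀ ω : ℝ, 2 * Real.pi * |ω| * A < 1 → ∫ x, e (ω * x) ∂ν ≠ 0) ∧
      ∀ h : ℝ → ℂ, Continuous h → ∀ θ φ β : ℝ,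
        ((ModOne β 0 → ∀ ω : ℝ, ¬ (ModOne θ (ω * Real.log 2) ∧ ModOne φ (-(ω * Real.log 3)))) →
          Tendsto (Mean s F h θ φ β) atTop (𝓝 0)) ∧
        ∀ ω : ℝ, ModOne β 0 → ModOne θ (ω * Real.log 2) → ModOne φ (-(ω * Real.log 3)) →
          Tendsto (fun N : ℕ => e (-(ω * Real.log N)) * Mean s F h θ φ β N) atTop
            (𝓝 ((∫ x, h x * e (ω * x) ∂ν) / (1 + 2 * Real.pi * ω * Complex.I))) := by
  obtain ⟨ν, A, hν, hA, hlaw⟩ := Pool.Agent.Q74.SP.exists_law hs F
  obtain ⟨A', hA'0, hA'⟩ := Pool.Agent.Q74.SP.lr_bdd F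
  have hce : ∀ ω : ℝ, Continuous fun x => e (ω * x) := by
    intro ω
    unfold e
    fun_prop
  refine ⟨ν, A, hν, hA, ?_, ?_, ?_⟩
  · intro hF
    obtain ⟨δ, c, -, -, -, hpos, hD, -⟩ := Pool.Agent.H499R2.LT.laws_side odd_one
      (by norm_num : ¬ (3 : ℤ) ∣ 1) hs F
    have h1 := hlaw (fun _ => 1) continuous_const
    have h2 : (Pool.Agent.Q74.SP.mean fun n => Pool.Agent.Q74.SP.GG F (fun _ => 1) 0 0 (s * n))
        = fun N : ℕ => ((Pool.Agent.H499R2.ND.cnt
          (fun n : ℕ => ∃ k : ℕ, (Pool.Agent.H499R2.ND.Td 1)^[k] (s * n) ∈ F) N / N : ℝ) : ℂ) := by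
      classical
      funext N
      unfold Pool.Agent.Q74.SP.mean
      rw [Pool.Agent.H499R2.ND.cnt_eq]
      push_cast
      congr 1
      rw [Finset.card_filter]
      push_cast
      apply sum_congr rfl
      intro n _
      unfold Pool.Agent.Q74.SP.GG
      by_cases hm : Pool.Agent.Q74.SP.Meets F (s * n)
      · rw [if_pos hm, if_pos]
        · simp [Pool.Agent.Q74.SP.e_zero]
        · exact hm
      · rw [if_neg hm, if_neg]
        exact hm
    rw [h2] at h1
    have h3 := (Complex.continuous_ofReal.tendsto δ).comp hD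
    have h4 := tendsto_nhds_unique h1 h3
    rw [integral_const, Complex.real_smul, mul_one] at h4
    have h5 : ν.real Set.univ = δ := by exact_mod_cast h4
    rw [h5]
    exact hpos hF
  · intro hpos ω hω h0
    have hint : ∀ g : ℝ → ℂ, Continuous g → Integrable g ν := by
      intro g hg
      obtain ⟨H, hH⟩ := (isCompact_Icc (a := -A) (b := A)).exists_bound_of_continuousOn hg.continuousOn
      refine Integrable.of_bound hg.aestronglyMeasurable H ?_
      rw [ae_iff]
      refine measure_mono_null (t := (Set.Icc (-A) A)ᶜ) ?_ hA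
      intro x hx hx'
      exact hx (hH x hx')
    have h1 : ∫ x, (e (ω * x) - 1) ∂ν = -(ν.real Set.univ : ℂ) := by
      rw [integral_sub (hint _ (hce ω)) (hint _ continuous_const), h0, zero_sub, integral_const,
        Complex.real_smul, mul_one]
    have h2 : ‖∫ x, (e (ω * x) - 1) ∂ν‖ ≤ (2 * Real.pi * |ω| * A) * ν.real Set.univ := by
      apply norm_integral_le_of_norm_le_const
      rw [ae_iff]
      refine measure_mono_null (t := (Set.Icc (-A) A)ᶜ) ?_ hA
      intro x hx hx'
      apply hx
      rw [e_eq]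
      refine (Pool.Agent.Q74.SP.norm_e_sub_one_le _).trans ?_
      rw [abs_mul]
      have h3 : |x| ≤ A := abs_le.2 hx'
      have h4 : 0 ≤ 2 * Real.pi * |ω| := by positivity
      nlinarith
    rw [h1, norm_neg, Complex.norm_real, Real.norm_eq_abs, abs_of_pos hpos] at h2
    nlinarith
  · intro h hh θ φ β
    have hcoc := Pool.Agent.Q74.SP.coc hh hA' hs θ φ
    constructor
    · intro hres
      rw [mean_eq]
      by_cases hβ : ModOne β 0
      · obtain ⟨m, hm⟩ := hβ
        rw [zero_add] at hm
        have h1 := Pool.Agent.Q74.SP.null hcoc (by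
          rintro ω ⟨⟨l, hl⟩, ⟨m', hm'⟩⟩
          refine hres ⟨m, by rw [zero_add]; exact hm⟩ ω ⟨⟨l, by linarith⟩, ⟨m', by linarith⟩⟩)
        refine h1.congr fun N => ?_
        congr 1
        funext n
        rw [hm, show (m : ℝ) * (n : ℝ) = ((m * n : ℤ) : ℝ) by push_cast; ring, Pool.Agent.Q74.SP.e_int, mul_one]
      · exact Pool.Agent.Q74.SP.null_beta hcoc fun n hn => hβ ⟨n, by rw [zero_add]; exact hn⟩
    · rintro ω ⟨b, hb⟩ ⟨l, hl⟩ ⟨m, hm⟩
      rw [zero_add] at hb
      have h1 := Pool.Agent.Q74.SP.twist (hlaw (fun x => h x * e (ω * x)) (hh.mul (hce ω))) ω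
      refine h1.congr' (Eventually.of_forall fun N => ?_)
      simp only [mean_eq, e_eq (-(ω * Real.log N))]
      congr 1
      have h2 : (Pool.Agent.Q74.SP.mean fun n : ℕ =>
            Pool.Agent.Q74.SP.GG F (fun x => h x * e (ω * x)) 0 0 (s * n) * Pool.Agent.Q74.SP.e (ω * Real.log n))
          = Pool.Agent.Q74.SP.mean fun n : ℕ =>
            Pool.Agent.Q74.SP.GG F h θ φ (s * n) * Pool.Agent.Q74.SP.e (β * n) := by
        apply Pool.Agent.Q74.SP.mean_congr
        intro n hn
        rw [hb, show (b : ℝ) * (n : ℝ) = ((b * n : ℤ) : ℝ) by push_cast; ring, Pool.Agent.Q74.SP.e_int, mul_one]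
        unfold Pool.Agent.Q74.SP.GG
        by_cases hmx : Pool.Agent.Q74.SP.Meets F (s * n)
        · rw [if_pos hmx, if_pos hmx]
          simp only [zero_mul, add_zero, Pool.Agent.Q74.SP.e_zero, mul_one]
          rw [e_eq, mul_assoc, ← Pool.Agent.Q74.SP.e_add]
          congr 1
          have h3 : θ * Pool.Agent.Q74.SP.time F (s * n) + φ * Pool.Agent.Q74.SP.odds (Pool.Agent.Q74.SP.time F (s * n)) (s * n)
              = (ω * Pool.Agent.Q74.SP.lr F (s * n) + ω * Real.log n)
                + ((l * Pool.Agent.Q74.SP.time F (s * n) + m * Pool.Agent.Q74.SP.odds (Pool.Agent.Q74.SP.time F (s * n)) (s * n) : ℤ) : ℝ) := by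
            have h4 : Real.log ((s * n : ℤ) : ℝ) = Real.log n := by
              rcases hs with rfl | rfl
              · push_cast; rw [one_mul]
              · push_cast; rw [neg_one_mul, Real.log_neg_eq_log]
            unfold Pool.Agent.Q74.SP.lr
            rw [h4, hl, hm]
            push_cast
            ring
          rw [h3, Pool.Agent.Q74.SP.e_add _ ((_ : ℤ) : ℝ), Pool.Agent.Q74.SP.e_int, mul_one]
        · rw [if_neg hmx, if_neg hmx, zero_mul]
      rw [h2]

end Pool.Agent.Results.MP_e43fce_nt.SpectrumAndResidues
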