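import Mathlib
import Pool.Agent.Q205.RP.Gam5
import Pool.Agent.Q205.RP.Verify2
import Pool.Agent.Q247.CS.Freq

/-!
# The total stopping time for almost every perturbation of the Collatz map

`T` is the `3x+1` function. For `ω : ℤ → {0, …, 5}` let `U ω n = T (n + ω n)` (`ω = 0` gives `T`). One application of `U ω` at `n`
stands for one step `m ↦ m / 2` if `m = n + ω n` is even and for the two steps `m ↦ 3 m + 1`, `m ↦ m / 2` if `m` is odd. Let the `ω n`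
be independent and uniform. Then almost surely the number of these steps needed to reach a finite set `A` has limsup
`λ₀ log n`, with `λ₀ = γ₀ (1 + log 2 / log 3) - 1 / log 3` and `γ₀` the constant of the repeated random walk model, and the
frequencies of the large values obey a law of large deviations. If the `ω` are chosen at random among those that agree with a finite
verification up to `N`, then every `n ≥ 1` reaches `1` and `l(n) ≤ n` for all large `n`, up to a probability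
`exp (- exp (c √(log N)))`.
-/

set_option autoImplicit false

open MeasureTheory Finset Filter Topology

namespace Pool.Agent.Results.MP_e43fce_nt.StepsConstantAfterVerification

/-- The `3x+1` function. -/
def T (x : ℤ) : ℤ := if x % 2 = 0 then x / 2 else (3 * x + 1) / 2

/-- The perturbed map. -/
def U (ω : ℤ → Fin 6) (x : ℤ) : ℤ := T (x + ((ω x : ℕ) : ℤ))

/-- The number of Collatz steps (`m ↦ m / 2` or `m ↦ 3 m + 1`) in the first `k` applications of `U ω` from `n`: an application of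
`U ω` at `y` with `y + ω y` even is one step, an application with `y + ω y` odd is two steps. -/
def steps (ω : ℤ → Fin 6) (k : ℕ) (n : ℤ) : ℕ :=
  ∑ i ∈ range k, (if ((U ω)^[i] n + ((ω ((U ω)^[i] n) : ℕ) : ℤ)) % 2 = 0 then 1 else 2)

/-- The law of independent fair dice, with faces `0, …, 5`, one for each integer. -/
noncomputable def dice : Measure (ℤ → Fin 6) :=
  Measure.infinitePi (fun _ : ℤ => (PMF.uniformOfFintype (Fin 6)).toMeasure)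

/-- `g(a) = sup_θ (θ a - log (½ (2^θ + (2/3)^θ)))`. -/
noncomputable def g (a : ℝ) : ℝ :=
  ⨆ θ : ℝ, (θ * a - Real.log ((1 / 2) * ((2 : ℝ) ^ θ + (2 / 3 : ℝ) ^ θ)))

/-- `λ = γ (1 + log 2 / log 3) - 1 / log 3`. -/
noncomputable def lam (γ : ℝ) : ℝ := γ * (1 + Real.log 2 / Real.log 3) - 1 / Real.log 3

/-- `l_A(n) ≤ n` for all large `n`, for `l_A(n)` the number of steps from `n` to the first visit to `A`. -/
def AtMostN (ω : ℤ → Fin 6) (A : Finset ℤ) : Prop :=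
  ∃ N : ℕ, ∀ n : ℕ, N ≤ n → ∃ k : ℕ, (U ω)^[k] (n : ℤ) ∈ A ∧ steps ω k n ≤ n

/-- `limsup l_A(n) / log n = l`. -/
def IsConstant (ω : ℤ → Fin 6) (A : Finset ℤ) (l : ℝ) : Prop :=
  (∀ ε : ℝ, ε > 0 → ∃ N : ℕ, ∀ n : ℕ, N ≤ n →
    ∃ k : ℕ, (U ω)^[k] (n : ℤ) ∈ A ∧ (steps ω k n : ℝ) ≤ (l + ε) * Real.log (n : ℝ)) ∧
  (∀ ε : ℝ, ε > 0 → ∀ N : ℕ, ∃ n : ℕ, N ≤ n ∧
    ∀ k : ℕ, (U ω)^[k] (n : ℤ) ∈ A → (l - ε) * Real.log (n : ℝ) ≤ (steps ω k n : ℝ))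

/-- The `n ≤ x` with `l_A(n) ≥ β log n`. -/
def late (ω : ℤ → Fin 6) (A : Finset ℤ) (β x : ℝ) : Set ℕ :=
  {n : ℕ | 1 ≤ n ∧ (n : ℝ) ≤ x ∧ ∀ k : ℕ, (U ω)^[k] (n : ℤ) ∈ A → β * Real.log n ≤ (steps ω k n : ℝ)}

/-- For all `α` between `(½ log (4/3))⁻¹` and `γ` the number of `n ≤ x` with `l_A(n) ≥ λ(α) log n` is
`x ^ (1 - α g(1/α) + o(1))`. -/
def Frequencies (ω : ℤ → Fin 6) (A : Finset ℤ) (γ : ℝ) : Prop :=
  ∀ α : ℝ, ((1 / 2) * Real.log (4 / 3))⁻¹ < α → α < γ → ∀ ε : ℝ, ε > 0 → ∃ X₀ : ℝ, ∀ x : ℝ,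
    X₀ ≤ x → x ^ (1 - α * g (1 / α) - ε) ≤ ((late ω A (lam α) x).ncard : ℝ) ∧
      ((late ω A (lam α) x).ncard : ℝ) ≤ x ^ (1 - α * g (1 / α) + ε)

/-- The three assertions for the set `A`. -/
def Law (ω : ℤ → Fin 6) (A : Finset ℤ) (γ : ℝ) : Prop :=
  AtMostN ω A ∧ IsConstant ω A (lam γ) ∧ Frequencies ω A γ

/-- Every `n ≥ 1` reaches `1`, `l(n) ≤ n` for all large `n` (the assertion of the problem), `limsup l(n) / log n = λ(γ)`, and the law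
of the frequencies. -/
def Good (ω : ℤ → Fin 6) (γ : ℝ) : Prop :=
  (∀ n : ℤ, 1 ≤ n → ∃ k : ℕ, (U ω)^[k] n = 1) ∧ Law ω {1} γ

theorem U_eq (ω : ℤ → Fin 6) : Q205.RP.Tn Q205.RP.G6 ω = U ω := rfl

theorem U_eq' (ω : ℤ → Fin 6) : Q247.CS.U ω = U ω := rfl

theorem steps_eq (ω : ℤ → Fin 6) (k : ℕ) (n : ℤ) : Q247.CS.steps ω k n = steps ω k n := by
  unfold Q247.CS.steps steps
  rw [U_eq']
  apply Finset.sum_congr rfl
  intro i _
  unfold Q247.CS.od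
  split_ifs <;> rfl

theorem late_eq (ω : ℤ → Fin 6) (A : Finset ℤ) (β x : ℝ) : Q247.CS.lateSt ω A β x = late ω A β x := by
  unfold Q247.CS.lateSt late
  rw [U_eq']
  simp only [steps_eq]

/-- a contracting power function -/
theorem contract : ∃ s κ : ℝ, 0 < s ∧ 0 < κ ∧ κ < (6 : ℕ) ∧ ∃ N : ℕ, ∀ x : ℤ, (N : ℤ) < |x| →
    ∑ c, Q205.RP.VV s (Q205.RP.G6 x c) ≤ κ * Q205.RP.VV s x := by
  obtain ⟨θ, ρ, a1, a2, a3, a4, a5, _⟩ :=
    Q205.RP.tilt_alpha (α := Q205.RP.mu + 1) (by linarith)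
  set r := Pool.Agent.H395R2.G3.rr (Q205.RP.mu + 1) with hr
  have e0 : 3 * ((1 / 2 : ℝ) ^ θ + (3 / 2) ^ θ) = 6 * ρ := by
    have e1 : (1 / 2 : ℝ) ^ θ = 2 * (1 - r) * ρ := by linarith
    have e2 : (3 / 2 : ℝ) ^ θ = 2 * r * ρ := by linarith
    rw [e1, e2]
    ring
  obtain ⟨κ, h1, h2⟩ := exists_between (show 6 * ρ < 6 by linarith)
  obtain ⟨N, hN⟩ := Q205.RP.drift6' θ κ (by rw [e0]; exact h1)
  exact ⟨θ, κ, a1, by linarith, by push_cast; exact h2, N, hN⟩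

/-- from the times of the visits to the numbers of steps -/
theorem transfer {γ₀ : ℝ} (hγ : Q205.RP.mu < γ₀) (hpos : ∀ α, Q205.RP.mu < α → α < γ₀ → 0 < Q205.RP.ex α)
    {ω : ℤ → Fin 6} (hω : Q205.RP.Typ γ₀ ω) {A : Finset ℤ} (hA : ∀ n : ℤ, 1 ≤ n → ∃ k : ℕ, (U ω)^[k] n ∈ A) :
    Law ω A γ₀ := by
  have hup : ∀ ε : ℝ, ε > 0 → ∃ N : ℕ, ∀ n : ℕ, N ≤ n → ∃ k : ℕ, (Q247.CS.U ω)^[k] (n : ℤ) ∈ A ∧
      (Q247.CS.steps ω k n : ℝ) ≤ (Q247.CS.lam γ₀ + ε) * Real.log (n : ℝ) :=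
    Q247.CS.up (fun ε hε => Q205.RP.lim_upper hγ hω hA hε)
  have hlow : ∀ ε : ℝ, ε > 0 → ∀ N : ℕ, ∃ n : ℕ, N ≤ n ∧ ∀ k : ℕ, (Q247.CS.U ω)^[k] (n : ℤ) ∈ A →
      (Q247.CS.lam γ₀ - ε) * Real.log (n : ℝ) ≤ (Q247.CS.steps ω k n : ℝ) :=
    Q247.CS.low (Q205.RP.mu_pos.trans hγ) (fun ε hε M => Q205.RP.lim_lower hγ hpos hω A hε M)
  have hfreq := Q247.CS.freq (ω := ω) (A := A) (E := Q205.RP.ex) (μ := Q205.RP.mu) (γ := γ₀)
    Q205.RP.mu_pos (fun α h1 _ => Q205.RP.ex_cont h1) hpos (by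
      intro α hα1 hα2 ε hε
      have hE := hpos α hα1 hα2
      obtain ⟨X₁, hX₁⟩ := Q205.RP.ld_lower hω A hα1 hα2 hE hε
      obtain ⟨X₂, hX₂⟩ := Q205.RP.ld_upper hω hA hα1 hα2 hE hε
      exact ⟨max X₁ X₂, fun x hx => ⟨hX₁ x ((le_max_left _ _).trans hx),
        hX₂ x ((le_max_right _ _).trans hx)⟩⟩)
  refine ⟨?_, ⟨?_, ?_⟩, ?_⟩
  · obtain ⟨N, hN⟩ := Q247.CS.linear hup
    refine ⟨N, fun n hn => ?_⟩
    obtain ⟨k, h1, h2⟩ := hN n hn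
    exact ⟨k, h1, by rw [← steps_eq]; exact h2⟩
  · intro ε hε
    obtain ⟨N, hN⟩ := hup ε hε
    refine ⟨N, fun n hn => ?_⟩
    obtain ⟨k, h1, h2⟩ := hN n hn
    exact ⟨k, h1, by rw [← steps_eq]; exact h2⟩
  · intro ε hε N
    obtain ⟨n, hn, h1⟩ := hlow ε hε N
    exact ⟨n, hn, fun k hk => by rw [← steps_eq]; exact h1 k hk⟩
  · intro α hα1 hα2 ε hε
    obtain ⟨X₀, hX₀⟩ := hfreq α hα1 hα2 ε hε
    refine ⟨X₀, fun x hx => ?_⟩
    rw [← late_eq]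
    exact hX₀ x hx

theorem almost_every {γ₀ : ℝ} (hneg : ∀ α, γ₀ < α → Q205.RP.ex α < 0)
    (hγ : Q205.RP.mu < γ₀) (hpos : ∀ α, Q205.RP.mu < α → α < γ₀ → 0 < Q205.RP.ex α) :
    ∀ᵐ ω ∂dice, (∃ A : Finset ℤ, ∀ n : ℤ, ∃ k : ℕ, (U ω)^[k] n ∈ A) ∧
    ∀ A : Finset ℤ, (∀ n : ℤ, 1 ≤ n → ∃ k : ℕ, (U ω)^[k] n ∈ A) → Law ω A γ₀ := by
  obtain ⟨s, κ, hs, hκ0, hκ, N, hN⟩ := contract
  have h1 := Q205.RP.typical hneg hγ hpos
  have h2 := Q205.RP.cycles_ae Q205.RP.G6 (Q205.RP.VV s) κ (Q205.RP.VV_pos s) hκ0 hκ N hN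
    (p := 2) (q := 3) (E := 1) (R := 32) (by norm_num) (by norm_num) (by norm_num) (by norm_num)
    Q205.RP.rec_G6
  have h3 := Q205.RP.evper_ae Q205.RP.G6 (Q205.RP.VV s) κ (Q205.RP.VV_ge hs.le) hκ0 hκ N hN
  change ∀ᵐ ω ∂(Q205.RP.P 6), _
  filter_upwards [h1, h2, h3] with ω hω hper hev
  refine ⟨⟨hper.toFinset, fun n => ?_⟩, fun A hA => transfer hγ hpos hω hA⟩
  obtain ⟨i, j, hij, hxx⟩ := hev n
  refine ⟨i, ?_⟩
  rw [Set.Finite.mem_toFinset]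
  exact Q205.RP.mem_periodicPts_of_eq _ hij hxx

theorem main {γ₀ : ℝ} (hneg : ∀ α, γ₀ < α → Q205.RP.ex α < 0)
    (hγ : Q205.RP.mu < γ₀) (hpos : ∀ α, Q205.RP.mu < α → α < γ₀ → 0 < Q205.RP.ex α) :
    ∃ c : ℝ, 0 < c ∧ ∃ N₀ : ℕ, ∀ N : ℕ, N₀ ≤ N → ∀ (D : Finset ℤ) (f : ℤ → Fin 6),
    (∀ n : ℤ, 1 ≤ n → n ≤ N → n ∈ D) → (∀ n ∈ D, U f n ∈ D) →
    (∀ n ∈ D, ∃ k : ℕ, (U f)^[k] n = 1) →
    dice {ω | (∀ n ∈ D, ω n = f n) ∧ ¬ Good ω γ₀} ≤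
      ENNReal.ofReal (Real.exp (-Real.exp (c * Real.sqrt (Real.log N)))) *
        dice {ω | ∀ n ∈ D, ω n = f n} := by
  obtain ⟨s, κ, hs, hκ0, hκ, N₁, hN₁⟩ := contract
  obtain ⟨c, hc, N₀, h⟩ := Q205.RP.verify Q205.RP.G6 (Q205.RP.VV s) κ (Q205.RP.VV_ge hs.le) hκ0 hκ
    N₁ hN₁ (p := 2) (q := 3) (E := 1) (R := 32) (by norm_num) (by norm_num) (by norm_num)
    (by norm_num) Q205.RP.rec_G6
  refine ⟨c, hc, N₀, fun N hN D f hD1 hD2 hD3 => ?_⟩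
  have h1 := h N hN D f {z | 1 ≤ z} (by
    intro z hz a
    have ha : (0 : ℤ) ≤ ((a : ℕ) : ℤ) := by positivity
    simp only [Set.mem_ofPred_eq] at hz ⊢
    unfold Q205.RP.G6 Q205.RP.tab
    split_ifs <;> omega) (by
    intro z hz hzN
    simp only [Set.mem_ofPred_eq] at hz
    rw [abs_of_nonneg (by omega)] at hzN
    exact hD1 z hz hzN)
  have hae := almost_every hneg hγ hpos
  rw [ae_iff] at hae
  have hcover : {ω | (∀ n ∈ D, ω n = f n) ∧ ¬ Good ω γ₀} ⊆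
      {ω | ¬ ((∃ A : Finset ℤ, ∀ n : ℤ, ∃ k : ℕ, (U ω)^[k] n ∈ A) ∧
        ∀ A : Finset ℤ, (∀ n : ℤ, 1 ≤ n → ∃ k : ℕ, (U ω)^[k] n ∈ A) → Law ω A γ₀)} ∪
      {ω | (∃ x ∈ {z : ℤ | 1 ≤ z}, ∀ j, (Q205.RP.Tn Q205.RP.G6 ω)^[j] x ∉ D) ∧
        ∀ s ∈ D, ω s = f s} := by
    rintro ω ⟨hω, hbad⟩
    by_cases ha : (∃ A : Finset ℤ, ∀ n : ℤ, ∃ k : ℕ, (U ω)^[k] n ∈ A) ∧
        ∀ A : Finset ℤ, (∀ n : ℤ, 1 ≤ n → ∃ k : ℕ, (U ω)^[k] n ∈ A) → Law ω A γ₀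
    swap
    · exact Or.inl ha
    right
    refine ⟨?_, hω⟩
    by_contra hcon
    push Not at hcon
    apply hbad
    have hreach : ∀ n : ℤ, 1 ≤ n → ∃ k : ℕ, (U ω)^[k] n = 1 := by
      intro n hn
      obtain ⟨j, hj⟩ := hcon n hn
      rw [U_eq] at hj
      obtain ⟨k, hk⟩ := hD3 _ hj
      have hit := Q205.RP.iter_eq Q205.RP.G6 ω f D hω (fun s hs => hD2 s hs) hj k
      rw [U_eq, U_eq] at hit
      refine ⟨k + j, ?_⟩
      rw [Function.iterate_add_apply, hit.1]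
      exact hk
    exact ⟨hreach, ha.2 {1} (fun n hn => by
      obtain ⟨k, hk⟩ := hreach n hn
      exact ⟨k, by rw [hk]; exact Finset.mem_singleton_self _⟩)⟩
  refine (measure_mono hcover).trans ((measure_union_le _ _).trans ?_)
  rw [hae, zero_add]
  exact h1

/-- the environment `n mod 2` -/
def par (x : ℤ) : Fin 6 := if x % 2 = 0 then 0 else 1

theorem par_cast (x : ℤ) : (((par x : Fin 6) : ℕ) : ℤ) = x % 2 := by
  unfold par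
  split_ifs with h
  · rw [h]; rfl
  · have : x % 2 = 1 := by omega
    rw [this]; rfl

/-- the choice `n mod 2` makes every trajectory decrease to `1` -/
theorem decreasing (n : ℤ) (hn : 1 ≤ n) : ∃ k : ℕ, (U par)^[k] n = 1 := by
  have hstep : ∀ x : ℤ, U par x = (x + x % 2) / 2 := by
    intro x
    unfold U T
    rw [par_cast]
    rw [if_pos (by omega)]
  obtain ⟨b, rfl⟩ : ∃ b : ℕ, n = b := ⟨n.toNat, by omega⟩
  induction b using Nat.strong_induction_on with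
  | _ b ih =>
    rcases Nat.lt_or_ge b 2 with h | h
    · exact ⟨0, by simp only [Function.iterate_zero, id_eq]; omega⟩
    · obtain ⟨k, hk⟩ := ih ((b + b % 2) / 2) (by omega) (by push_cast; omega)
      refine ⟨k + 1, ?_⟩
      rw [Function.iterate_succ_apply, hstep]
      push_cast at hk
      exact hk

/-- **The total stopping time for almost every perturbation.** -/
theorem result : ∃ γ₀ : ℝ,
    (γ₀ > ((1 / 2) * Real.log (4 / 3))⁻¹ ∧ γ₀ * g (1 / γ₀) = 1) ∧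
    (∀ γ : ℝ, γ > ((1 / 2) * Real.log (4 / 3))⁻¹ → γ * g (1 / γ) = 1 → γ = γ₀) ∧
    (∀ α : ℝ, ((1 / 2) * Real.log (4 / 3))⁻¹ < α → α < γ₀ → 0 < 1 - α * g (1 / α)) ∧
    (∀ᵐ ω ∂dice, (∃ A : Finset ℤ, ∀ n : ℤ, ∃ k : ℕ, (U ω)^[k] n ∈ A) ∧
      ∀ A : Finset ℤ, (∀ n : ℤ, 1 ≤ n → ∃ k : ℕ, (U ω)^[k] n ∈ A) →
        AtMostN ω A ∧ IsConstant ω A (lam γ₀) ∧ Frequencies ω A γ₀) ∧
    (∃ c : ℝ, 0 < c ∧ ∃ N₀ : ℕ, ∀ N : ℕ, N₀ ≤ N → ∀ (D : Finset ℤ) (f : ℤ → Fin 6),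
      (∀ n : ℤ, 1 ≤ n → n ≤ N → n ∈ D) → (∀ n ∈ D, U f n ∈ D) →
      (∀ n ∈ D, ∃ k : ℕ, (U f)^[k] n = 1) →
      dice {ω | (∀ n ∈ D, ω n = f n) ∧ ¬ Good ω γ₀} ≤
        ENNReal.ofReal (Real.exp (-Real.exp (c * Real.sqrt (Real.log N)))) *
          dice {ω | ∀ n ∈ D, ω n = f n}) ∧
    0 < dice {ω | Good ω γ₀} := by
  obtain ⟨γ₀, _, ⟨hγ1, hγ2⟩, huniq, hFF⟩ := Pool.Agent.H395R2.G3.exists_gamma
  have hγ : Q205.RP.mu < γ₀ := hγ1
  have hpos : ∀ α, Q205.RP.mu < α → α < γ₀ → 0 < Q205.RP.ex α := by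
    intro α h1 h2
    rw [Q205.RP.ex_eq h1]
    exact mul_pos (Q205.RP.mu_pos.trans h1)
      (hFF α (Q205.RP.inv_log_two_lt_mu.trans h1) h2)
  have hneg : ∀ α, γ₀ < α → Q205.RP.ex α < 0 := by
    intro α h1
    have hα : Q205.RP.mu < α := hγ.trans h1
    have hγ0 : 0 < γ₀ := Q205.RP.mu_pos.trans hγ
    have hα0 : 0 < α := hγ0.trans h1
    have hl3 : 0 < Real.log 3 := Real.log_pos (by norm_num)
    by_contra hcon
    rw [not_lt, Q205.RP.ex_eq hα] at hcon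
    have h2 : 0 ≤ Pool.Agent.H395R2.G3.FF (Pool.Agent.H395R2.G3.rr α) :=
      nonneg_of_mul_nonneg_right hcon hα0
    have h3 : Pool.Agent.H395R2.G3.rr γ₀ < Pool.Agent.H395R2.G3.rr α := by
      unfold Pool.Agent.H395R2.G3.rr
      apply div_lt_div_of_pos_right _ hl3
      have := one_div_lt_one_div_of_lt hγ0 h1
      linarith
    have h4 := Pool.Agent.H395R2.G3.FF_pos_of
      (Pool.Agent.H395R2.G3.rr_pos (Q205.RP.inv_log_two_lt_mu.trans hγ)) h3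
      (Pool.Agent.H395R2.G3.rr_lt_one hα0).le h2
    have h5 := Pool.Agent.H395R2.G3.expo_eq (Q205.RP.inv_log_two_lt_mu.trans hγ)
    rw [hγ2, sub_self] at h5
    have h6 := mul_pos hγ0 h4
    linarith
  refine ⟨γ₀, ⟨hγ1, hγ2⟩, huniq, hpos, almost_every hneg hγ hpos, main hneg hγ hpos, ?_⟩
  obtain ⟨c, hc, N₀, h⟩ := main hneg hγ hpos
  set D : Finset ℤ := Finset.Icc 1 (N₀ : ℤ) with hD
  have h1 := h N₀ le_rfl D par (fun n h1 h2 => Finset.mem_Icc.2 ⟨h1, h2⟩) (by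
    intro n hn
    rw [hD, Finset.mem_Icc] at hn ⊢
    show 1 ≤ U par n ∧ U par n ≤ N₀
    unfold U T
    rw [par_cast, if_pos (by omega)]
    omega) (fun n hn => decreasing n (Finset.mem_Icc.1 hn).1)
  set A := dice {ω | ∀ n ∈ D, ω n = par n} with hA
  have hApos : 0 < A := by
    rw [hA]
    have h2 : dice {ω | ∀ n ∈ D, ω n = par n} = (((6 : ℕ) : ENNReal)⁻¹) ^ D.card :=
      Q205.RP.cyl D par
    rw [h2]
    apply ENNReal.pow_pos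
    rw [ENNReal.inv_pos]
    exact ENNReal.natCast_ne_top 6
  have hAfin : A ≠ ⊤ := by
    have : IsProbabilityMeasure dice := inferInstanceAs (IsProbabilityMeasure (Q205.RP.P 6))
    exact measure_ne_top _ _
  by_contra hcon
  have hzero : dice {ω | Good ω γ₀} = 0 := by
    simpa using hcon
  have h2 : A ≤ dice {ω | Good ω γ₀} +
      dice {ω | (∀ n ∈ D, ω n = par n) ∧ ¬ Good ω γ₀} := by
    refine (measure_mono ?_).trans (measure_union_le _ _)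
    intro ω hω
    by_cases hl : Good ω γ₀
    · exact Or.inl hl
    · exact Or.inr ⟨hω, hl⟩
  rw [hzero, zero_add] at h2
  have h3 : Real.exp (-Real.exp (c * Real.sqrt (Real.log N₀))) < 1 := by
    rw [Real.exp_lt_one_iff]
    linarith [Real.exp_pos (c * Real.sqrt (Real.log N₀))]
  have h4 : ENNReal.ofReal (Real.exp (-Real.exp (c * Real.sqrt (Real.log N₀)))) < 1 := by
    rw [← ENNReal.ofReal_one]
    exact (ENNReal.ofReal_lt_ofReal_iff one_pos).2 h3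
  have h5 : ENNReal.ofReal (Real.exp (-Real.exp (c * Real.sqrt (Real.log N₀)))) * A < 1 * A :=
    (ENNReal.mul_lt_mul_iff_left hApos.ne' hAfin).2 h4
  rw [one_mul] at h5
  exact absurd (h2.trans h1) (not_le.2 h5)

end Pool.Agent.Results.MP_e43fce_nt.StepsConstantAfterVerification
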